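import Pool.Agent.X151.MG.Final
import Pool.Agent.X151.MG.EllPot

/-!
# MP_d36e13_an, Q1: the reverse Faber-Krahn inequality for a localized magnetic field fails

The counterexample: `Ω` is the unit disk (so `Ω* = Ω`), `ω` is a thin ellipse with semi-axes
`1/2` and `ε`, and the flux is a suitable large integer.
-/

namespace Pool.Agent.Results.MP_d36e13_an.ThinEllipse

open Pool.Agent.X151.MG MeasureTheory

/-- There are `ε > 0` and an integer flux `Φ = N` such that, with `Ω` the open unit disk, `ω` the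
open ellipse with semi-axes `1/2` and `ε`, whose closure lies in `Ω`, `b = 2πΦ/|ω|`, and `ω*` the
centred open disk with `|ω*| = |ω|` (and `Ω* = Ω`), one has
`λ(Φ, Ω*, ω*) < λ(Φ, Ω, ω)`. Potentials exist in both cases. -/
theorem result : ∃ (ε : ℝ) (N : ℕ), 0 < ε ∧
    closure (ell (1 / 2) ε) ⊆ disk 1 ∧
    volume (disk (Real.sqrt (ε / 2))) = volume (ell (1 / 2) ε) ∧
    (∃ A, IsPotential (2 * Real.pi * N / (volume (ell (1 / 2) ε)).toReal) (disk 1)
      (ell (1 / 2) ε) A) ∧
    (∃ A, IsPotential (2 * Real.pi * N / (volume (ell (1 / 2) ε)).toReal) (disk 1)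
      (disk (Real.sqrt (ε / 2))) A) ∧
    lam (2 * Real.pi * N / (volume (ell (1 / 2) ε)).toReal) (disk 1) (disk (Real.sqrt (ε / 2))) <
    lam (2 * Real.pi * N / (volume (ell (1 / 2) ε)).toReal) (disk 1) (ell (1 / 2) ε) := by
  obtain ⟨ε, N, h0, h1, h2⟩ := final
  have hv : (volume (ell (1 / 2) ε)).toReal = Real.pi * (ε / 2) := by
    rw [vol_ell (by norm_num) h0, ENNReal.toReal_ofReal (by positivity)]
    ring
  refine ⟨ε, N, h0, clos_ell h0 h1, ?_, ⟨_, ellA_pot h0 _⟩, ?_, h2⟩
  · rw [vol_disk (Real.sqrt_nonneg _), vol_ell (by norm_num) h0, Real.sq_sqrt (by positivity)]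
    congr 1
    ring
  · have hp := radA_pot (s := ε / 2) (by positivity) (N : ℝ) (R := Real.sqrt (ε / 2))
      (Real.sq_sqrt (by positivity))
    have hb : 2 * Real.pi * N / (volume (ell (1 / 2) ε)).toReal = 2 * N / (ε / 2) := by
      rw [hv]
      field_simp
    rw [hb]
    exact ⟨_, hp⟩

end Pool.Agent.Results.MP_d36e13_an.ThinEllipse
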